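import Pool.Agent.MP_df844f_gt.RA.c.RF

-- ======== part 0: formerly Pool.Agent.MP_df844f_gt.RA.StC
section MrgPart0

set_option linter.unusedSectionVars false

noncomputable section

namespace Pool.Agent.MP_df844f_gt.RA

variable [Dat]

open PS

/-- Short elements act without fixed points. -/
def Loc (B : Type) [MulAction W B] : Prop := ∀ (b : B) (w : W), len w ≤ 3 → w • b = b → w = 1

theorem loc_of {B : Type} [MulAction W B] {o : B} (h1 : Trans o) (h2 : Thick o 3) : Loc B := by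
  intro b w hw h
  obtain ⟨v, rfl⟩ := h1 b
  have := h2 v (w * v) (by rw [mul_smul, h]) (by rw [d_mul_left]; exact hw)
  simpa using this.symm

theorem g_ne_one (s : S) : g s ≠ 1 := fun h => by
  have := len_g s; rw [h, len_one] at this; omega

theorem exists_adj (s : S) : ∃ t, adj s t := by
  obtain ⟨⟨t, ht⟩⟩ := (Dat.sph.link s).nonempty
  exact ⟨t, ht⟩

theorem no4 {s t u v : S} (a : adj s t) (b : adj s u) (c : adj s v) (d : adj t u) (e : adj t v)
    (f : adj u v) : False :=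
  Dat.sph.free4 {s, t, u, v} ((SimpleGraph.is3Clique_triple_iff.2 ⟨d, e, f⟩).insert fun x hx => by
    simp only [Finset.mem_insert, Finset.mem_singleton] at hx
    rcases hx with rfl | rfl | rfl
    exacts [a, b, c])

theorem exists_nonadj : ∃ u v : S, u ≠ v ∧ ¬ adj u v := by
  obtain ⟨t, ht⟩ := exists_adj 0
  obtain ⟨u, v, h, e⟩ := Set.ncard_eq_two.1 (Dat.sph.two 0 t ht)
  have hu : u ∈ Dat.G.commonNeighbors 0 t := by rw [e]; simp
  have hv : v ∈ Dat.G.commonNeighbors 0 t := by rw [e]; simp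
  exact ⟨u, v, h, no4 ht hu.1 hv.1 hu.2 hv.2⟩

theorem nS_pos : 0 < nS := Fintype.card_pos

theorem infinite_W : Infinite W := by
  obtain ⟨u, v, h1, h2⟩ := exists_nonadj
  have h : ¬ IsOfFinOrder (g u * g v) := by
    rw [isOfFinOrder_iff_pow_eq_one]
    rintro ⟨n, hn, k⟩
    obtain ⟨m, rfl⟩ : ∃ m, n = m + 1 := ⟨n - 1, by omega⟩
    exact pow_ne_one h1 h2 m k
  exact Infinite.of_injective _ (injective_pow_iff_not_isOfFinOrder.2 h)

/-- Paths of length at most `n` for a relation. -/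
inductive Rn {α : Type} (R : α → α → Prop) : ℕ → α → α → Prop
  | refl (n x) : Rn R n x x
  | step {n x y z} : R x y → Rn R n y z → Rn R (n + 1) x z

theorem Rn.mono {α : Type} {R : α → α → Prop} {n m : ℕ} {x y : α} (h : Rn R n x y) (k : n ≤ m) :
    Rn R m x y := by
  induction h generalizing m with
  | refl n x => exact Rn.refl _ _
  | step he _ ih =>
    obtain ⟨m, rfl⟩ : ∃ m', m = m' + 1 := ⟨m - 1, by omega⟩
    exact Rn.step he (ih (by omega))

theorem Rn.trans {α : Type} {R : α → α → Prop} {n m : ℕ} {x y z : α} (h : Rn R n x y)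
    (k : Rn R m y z) : Rn R (n + m) x z := by
  induction h with
  | refl n x => exact k.mono (by omega)
  | step he _ ih => rw [Nat.add_right_comm]; exact Rn.step he (ih k)

theorem Rn.single {α : Type} {R : α → α → Prop} {x y : α} (h : R x y) : Rn R 1 x y :=
  Rn.step h (Rn.refl 0 y)

theorem Rn.symm {α : Type} {R : α → α → Prop} (hR : ∀ a b, R a b → R b a) {n : ℕ} {x y : α}
    (h : Rn R n x y) : Rn R n y x := by
  induction h with
  | refl n x => exact Rn.refl _ _
  | step he _ ih => exact ih.trans (Rn.single (hR _ _ he))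

theorem Rn.tail_cases {α : Type} {R : α → α → Prop} {n : ℕ} {x z : α} (h : Rn R (n + 1) x z) :
    Rn R n x z ∨ ∃ y, Rn R n x y ∧ R y z := by
  induction n generalizing x with
  | zero =>
    cases h with
    | refl => exact Or.inl (Rn.refl _ _)
    | step a b => cases b; exact Or.inr ⟨x, Rn.refl _ _, a⟩
  | succ n ih =>
    cases h with
    | refl => exact Or.inl (Rn.refl _ _)
    | step a b =>
      rcases ih b with k | ⟨y, k1, k2⟩
      · exact Or.inl (Rn.step a k)
      · exact Or.inr ⟨y, Rn.step a k1, k2⟩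

/-- Inside a finite set, reachable points are reachable in at most `card` steps. -/
theorem rn_of_reflTransGen {α : Type} {R : α → α → Prop} (D : Finset α)
    (hD : ∀ a b, R a b → b ∈ D) {x y : α} (h : Relation.ReflTransGen R x y) : Rn R D.card x y := by
  classical
  have key : ∀ n, (∀ z, Rn R (n + 1) x z → Rn R n x z) ∨
      n + 1 ≤ (D.filter fun z => z ≠ x ∧ Rn R (n + 1) x z).card := by
    intro n
    induction n with
    | zero =>
      by_cases k : ∀ z, Rn R 1 x z → Rn R 0 x z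
      · exact Or.inl k
      · push Not at k
        obtain ⟨z, k1, k2⟩ := k
        refine Or.inr (Finset.card_pos.2 ⟨z, Finset.mem_filter.2 ⟨?_, ?_, k1⟩⟩)
        · rcases k1.tail_cases with q | ⟨y, _, q⟩
          · exact absurd q k2
          · exact hD _ _ q
        · rintro rfl; exact k2 (Rn.refl _ _)
    | succ n ih =>
      by_cases k : ∀ z, Rn R (n + 2) x z → Rn R (n + 1) x z
      · exact Or.inl k
      · push Not at k
        obtain ⟨z, k1, k2⟩ := k
        rcases ih with ih | ih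
        · exfalso
          rcases k1.tail_cases with q | ⟨y, q1, q2⟩
          · exact k2 q
          · exact k2 ((ih y q1).trans (Rn.single q2))
        · right
          have hz : z ∈ D.filter fun z => z ≠ x ∧ Rn R (n + 2) x z := by
            refine Finset.mem_filter.2 ⟨?_, ?_, k1⟩
            · rcases k1.tail_cases with q | ⟨y, _, q⟩
              · exact absurd q k2
              · exact hD _ _ q
            · rintro rfl; exact k2 (Rn.refl _ _)
          have hs : (D.filter fun z => z ≠ x ∧ Rn R (n + 1) x z) ⊂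
              D.filter fun z => z ≠ x ∧ Rn R (n + 2) x z := by
            refine ⟨fun a ha => ?_, fun q => k2 (Finset.mem_filter.1 (q hz)).2.2⟩
            obtain ⟨a1, a2, a3⟩ := Finset.mem_filter.1 ha
            exact Finset.mem_filter.2 ⟨a1, a2, a3.mono (by omega)⟩
          have := Finset.card_lt_card hs
          show n + 1 + 1 ≤ (D.filter fun z => z ≠ x ∧ Rn R (n + 2) x z).card
          omega
  rcases key D.card with k | k
  · induction h with
    | refl => exact Rn.refl _ _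
    | tail _ q ih => exact k _ (ih.trans (Rn.single q))
  · have := Finset.card_filter_le D fun z => z ≠ x ∧ Rn R (D.card + 1) x z
    omega

namespace PS

variable {B : Type} [MulAction W B] {Y : PS B}

theorem e_ne (hB : Loc B) {s : S} {x y : Y.Om} (h : Y.e s x y) : x ≠ y := by
  rintro rfl
  exact g_ne_one s (hB _ _ (by rw [len_g]; omega) (Y.e_f h).symm)

theorem near_of_rn {R : Y.Om → Y.Om → Prop} {k : ℕ} (hR : ∀ a b, R a b → Y.Near k a b) {n : ℕ}
    {x y : Y.Om} (h : Rn R n x y) : Y.Near (k * n) x y := by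
  induction h with
  | refl n x => exact Near.refl _ _
  | step a _ ih => rw [Nat.mul_succ, add_comm]; exact (hR _ _ a).trans ih

theorem near_sg (s : S) (x : Y.Om) : Y.Near 1 x (Y.sg s x) := by
  by_cases h : Y.Free x s
  · rw [sg_of_free h]; exact Near.refl _ _
  · exact Near.single (e_sg h)

theorem State.sg3 (hY : Y.State) {s t : S} (h : adj s t) (x : Y.Om) :
    Y.sg s (Y.sg t (Y.sg s x)) = x ∨ Y.sg s (Y.sg t (Y.sg s x)) = Y.sg t x ∨
      Y.sg s (Y.sg t (Y.sg s x)) = Y.sg t (Y.sg s x) ∨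
      Y.sg s (Y.sg t (Y.sg s x)) = Y.sg s (Y.sg t x) := by
  by_cases a : Y.Free x s
  · rw [sg_of_free a]; simp
  · by_cases b : Y.Free (Y.sg s x) t
    · rw [sg_of_free b, hY.sg_sg]; simp
    · by_cases c : Y.Free (Y.sg t (Y.sg s x)) s
      · rw [sg_of_free c]; simp
      · have := hY.close h (e_sg a) (e_sg b) (e_sg c)
        exact Or.inr (Or.inl (hY.sg_eq (Y.e_symm this)).symm)

/-- Description of rank 2 orbits. -/
theorem State.orb2 (hY : Y.State) {s t : S} (h : adj s t) {x y : Y.Om}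
    (k : Y.cell x {s, t} = Y.cell y {s, t}) :
    y = x ∨ y = Y.sg s x ∨ y = Y.sg t x ∨ y = Y.sg t (Y.sg s x) ∨ y = Y.sg s (Y.sg t x) := by
  have := (cell_eq_iff.1 k).2
  clear k
  induction this with
  | refl => exact Or.inl rfl
  | tail _ q ih =>
    obtain ⟨u, hu, e⟩ := q
    rw [← hY.sg_eq e]
    have h3 := hY.sg3 h x
    have h4 := hY.sg3 (adj_symm h) x
    simp only [Finset.mem_insert, Finset.mem_singleton] at hu
    rcases hu with rfl | rfl <;> rcases ih with rfl | rfl | rfl | rfl | rfl <;>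
      (try simp only [hY.sg_sg]) <;> tauto

theorem State.near_orb2 (hY : Y.State) {s t : S} (h : adj s t) {x y : Y.Om}
    (k : Y.cell x {s, t} = Y.cell y {s, t}) : Y.Near 2 x y := by
  rcases hY.orb2 h k with rfl | rfl | rfl | rfl | rfl
  · exact Near.refl _ _
  · exact (near_sg _ _).mono (by omega)
  · exact (near_sg _ _).mono (by omega)
  · exact (near_sg _ _).trans (near_sg _ _)
  · exact (near_sg _ _).trans (near_sg _ _)

theorem State.badj_near (hY : Y.State) {p q : Y.Om × S} (h : Y.BAdj p q) : Y.Near 2 p.1 q.1 := by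
  obtain ⟨_, _, t, t', a, _, c⟩ := h
  have e := (cell_eq_iff.1 c).1
  rw [← e] at c
  exact hY.near_orb2 a c

theorem State.bconn_near (hY : Y.State) {D : Finset (Y.Om × S)} (h : Y.BConn D) {p q : Y.Om × S}
    (hp : p ∈ D) (hq : q ∈ D) : Y.Near (2 * D.card) p.1 q.1 := by
  have := rn_of_reflTransGen D (fun a b k => k.2.1) (h.2 p hp q hq)
  generalize D.card = n at this
  clear hp hq
  induction this with
  | refl n x => exact Near.refl _ _
  | step a _ ih => rw [Nat.mul_succ, add_comm]; exact (hY.badj_near a.2.2).trans ih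

theorem State.ball (hY : Y.State) (x : Y.Om) (R : ℕ) : {y | Y.Near R x y}.ncard ≤ (nS + 1) ^ R := by
  induction R with
  | zero =>
    have : {y | Y.Near 0 x y} ⊆ {x} := by
      intro y hy; cases hy; rfl
    simpa using Set.ncard_le_ncard this
  | succ R ih =>
    have : {y | Y.Near (R + 1) x y} ⊆ (fun p : Y.Om × Option S =>
        match p.2 with | none => p.1 | some s => Y.sg s p.1) ''
          ({y | Y.Near R x y} ×ˢ Set.univ) := by
      intro y hy
      have hy' : Y.Near (R + 1) y x := Near.symm hy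
      cases hy' with
      | refl => exact ⟨(x, none), ⟨Near.refl _ _, trivial⟩, rfl⟩
      | @step _ s _ z _ a b => exact ⟨(z, some s), ⟨b.symm, trivial⟩, hY.sg_eq (Y.e_symm a)⟩
    refine (Set.ncard_le_ncard this).trans ((Set.ncard_image_le (Set.toFinite _)).trans ?_)
    rw [Set.ncard_prod, Set.ncard_univ, pow_succ]
    exact Nat.mul_le_mul ih (by simp [card_S])

theorem Full.mono {x : Y.Om} {J J' : Finset S} (h : Y.Full x J') (k : J ⊆ J') : Y.Full x J :=
  fun y hy s hs => h y (cell_mono hy k) s (k hs)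

theorem Full.congr {x y : Y.Om} {J : Finset S} (h : Y.Full x J) (k : Y.cell y J = Y.cell x J) :
    Y.Full y J := fun z hz => h z (hz.trans k)

theorem State.full_one (hY : Y.State) {x : Y.Om} {s : S} : Y.Full x {s} ↔ ¬ Y.Free x s := by
  constructor
  · intro h; exact h x rfl s (Finset.mem_singleton_self s)
  · intro h y hy t ht
    obtain rfl := Finset.mem_singleton.1 ht
    rcases hY.cell_one.1 hy with rfl | k
    · exact h
    · exact fun q => q ⟨x, k⟩

theorem ch0_apply (Z : Finset Y.Om) (y : Y.Om) [Decidable (y ∈ Z)] :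
    Y.ch0 Z (Y.cell y ∅) = if y ∈ Z then 1 else 0 := by
  classical
  unfold ch0
  rw [Finsupp.finsetSum_apply]
  have : ∀ x ∈ Z, (Finsupp.single (Y.cell x ∅) (1 : F2)) (Y.cell y ∅) = if x = y then 1 else 0 := by
    intro x _
    rw [Finsupp.single_apply]
    exact if_congr ⟨cell_empty_inj, fun h => by rw [h]⟩ rfl rfl
  rw [Finset.sum_congr rfl this, Finset.sum_ite_eq']
  split_ifs <;> rfl

theorem bd_ch0 (Z : Finset Y.Om) :
    Y.bd (Y.ch0 Z) = ∑ x ∈ Z, ∑ s : S, Finsupp.single (Y.cell x {s}) 1 := by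
  unfold ch0
  rw [map_sum]
  refine Finset.sum_congr rfl fun x _ => ?_
  rw [bd_single]
  simp

theorem bd_ch1 (D : Finset (Y.Om × S)) :
    Y.bd (Y.ch1 D) = ∑ p ∈ D, ∑ t ∈ Finset.univ.filter (fun t => adj p.2 t),
      Finsupp.single (Y.cell p.1 {p.2, t}) 1 := by
  unfold ch1
  rw [map_sum]
  refine Finset.sum_congr rfl fun p _ => ?_
  rw [bd_single]
  simp [Finset.pair_comm]

end PS

theorem cvxPS_state (K : Finset W) : (cvxPS K).State where
  fold := fun {s x y y'} (a : y.1 = _) (b : y'.1 = _) => Subtype.ext (a.trans b.symm)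
  close := fun {s t x0 x1 x2 x3} h (a : x1.1 = _) (b : x2.1 = _) (c : x3.1 = _) => by
    show x0.1 = g t * x3.1
    rw [c, b, a, ← mul_assoc, ← mul_assoc, ← mul_assoc, ← g_comm h]
    simp [mul_assoc]

theorem fullPS_state (B : Type) [MulAction W B] [Finite B] : (fullPS B).State where
  fold := fun {s x y y'} (a : y = _) (b : y' = _) => a.trans b.symm
  close := by
    intro s t
    show ∀ {x0 x1 x2 x3 : B}, adj s t → x1 = g s • x0 → x2 = g t • x1 → x3 = g s • x2 →
      x0 = g t • x3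
    intro x0 x1 x2 x3 h a b c
    rw [c, b, a, smul_smul, smul_smul, smul_smul, ← g_comm h]
    simp [mul_assoc]

end Pool.Agent.MP_df844f_gt.RA

end
end MrgPart0

-- ======== part 1: formerly Pool.Agent.MP_df844f_gt.RA.w.FSpec
section MrgPart1

/-! The facts on the graph, split into three statements. -/

noncomputable section

namespace Pool.Agent.MP_df844f_gt.RA

variable [Dat]

structure Fact1 : Prop where
  clq : ∀ J : Finset S, Clq J → J.card ≤ 3
  nosq : ∀ s t u v : S, adj s t → adj t u → adj u v → adj v s → s ≠ u → t ≠ v → adj s u ∨ adj t v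
  big : 12 ≤ nS
  two : ∀ s t : S, adj s t → ∃ u v, u ≠ v ∧ ∀ x, (adj s x ∧ adj t x) ↔ (x = u ∨ x = v)
  n2 : (Finset.univ.filter fun J : Finset S => J.card = 2 ∧ Clq J).card + 6 = 3 * nS
  n3 : (Finset.univ.filter fun J : Finset S => J.card = 3 ∧ Clq J).card + 4 = 2 * nS
  tri : ∀ J J' : Finset S, J.card = 3 → Clq J → J'.card = 3 → Clq J' → Relation.ReflTransGen
    (fun a b : Finset S => a.card = 3 ∧ Clq a ∧ b.card = 3 ∧ Clq b ∧ (a ∩ b).card = 2) J J'
  lnk : ∀ s t u : S, adj s t → adj s u →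
    Relation.ReflTransGen (fun a b => adj s a ∧ adj s b ∧ adj a b) t u
  gconn : ∀ s t : S, Relation.ReflTransGen adj s t

def GConnS : Prop := ∀ J : Finset S, Clq J → ∀ s ∉ J, ∀ t ∉ J,
  Relation.ReflTransGen (fun a b => a ∉ J ∧ b ∉ J ∧ adj a b) s t

def GH1S : Prop := ∀ J : Finset S, Clq J → ∀ c : S → S → F2, (∀ s t, c s t = c t s) →
  (∀ s ∉ J, ∀ t ∉ J, ∀ u ∉ J, adj s t → adj t u → adj s u → c s t + c t u + c s u = 0) →
  ∃ φ : S → F2, ∀ s ∉ J, ∀ t ∉ J, adj s t → c s t = φ s + φ t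

theorem fact_of (a : Fact1) (b : GConnS) (c : GH1S) : FactS :=
  ⟨a.clq, a.nosq, a.big, a.two, a.n2, a.n3, b, c, a.tri, a.lnk⟩

end Pool.Agent.MP_df844f_gt.RA

end
end MrgPart1

-- ======== part 2: formerly Pool.Agent.MP_df844f_gt.RA.w.Tau
section MrgPart2

/-! The truncated number of separating walls is linear in the number of points. -/

set_option linter.unusedSectionVars false

noncomputable section

namespace Pool.Agent.MP_df844f_gt.RA

variable [Dat]

namespace TauP

open Finset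

/-- Truncated count of a finite set along the fibres of a map. -/
noncomputable def tf (X : Finset W) (f : W → Finset (W × W)) : ℕ :=
  ∑ t ∈ X.image f, min 140 (X.filter fun q => f q = t).card

theorem tau_eq (F : Finset W) : tau F = tf (sepW F) (ty F) := rfl

theorem tf_eq {X : Finset W} {f : W → Finset (W × W)} {U : Finset (Finset (W × W))}
    (h : X.image f ⊆ U) : tf X f = ∑ t ∈ U, min 140 (X.filter fun q => f q = t).card := by
  unfold tf
  refine sum_subset h fun t _ ht => ?_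
  have : (X.filter fun q => f q = t) = ∅ := by
    rw [filter_eq_empty_iff]
    intro q hq e
    exact ht (mem_image.2 ⟨q, hq, e⟩)
  rw [this]; simp

theorem tf_le_card (X : Finset W) (f : W → Finset (W × W)) : tf X f ≤ X.card := by
  rw [card_eq_sum_card_image f X]
  exact sum_le_sum fun t _ => min_le_right _ _

theorem tf_le_mul (X : Finset W) (f : W → Finset (W × W)) : tf X f ≤ 140 * (X.image f).card := by
  unfold tf
  rw [mul_comm, ← smul_eq_mul, ← sum_const]
  exact sum_le_sum fun t _ => min_le_left _ _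

theorem tf_union (A B : Finset W) (f : W → Finset (W × W)) : tf (A ∪ B) f ≤ tf A f + tf B f := by
  rw [tf_eq (X := A) (U := (A ∪ B).image f) (image_subset_image subset_union_left),
    tf_eq (X := B) (U := (A ∪ B).image f) (image_subset_image subset_union_right),
    ← sum_add_distrib]
  refine sum_le_sum fun t _ => ?_
  have := card_union_le (A.filter fun q => f q = t) (B.filter fun q => f q = t)
  rw [← filter_union] at this
  omega

theorem tf_biUnion {ι : Type*} (I : Finset ι) (A : ι → Finset W) (f : W → Finset (W × W)) :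
    tf (I.biUnion A) f ≤ ∑ i ∈ I, tf (A i) f := by
  classical
  induction I using Finset.induction_on with
  | empty => simp [tf]
  | insert i I hi ih =>
    rw [biUnion_insert, sum_insert hi]
    exact (tf_union _ _ _).trans (Nat.add_le_add_left ih _)

/-- The points of `F` on the same side of `r` as `p`. -/
noncomputable def sd (F : Finset W) (p r : W) : Finset W := F.filter fun a => r ∉ Sep p a

theorem mem_sd {F : Finset W} {p r a : W} : a ∈ sd F p r ↔ a ∈ F ∧ (r ∈ N p ↔ r ∈ N a) := by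
  unfold sd; rw [mem_filter, mem_Sep, not_not]

theorem sd_sub (F : Finset W) (p r : W) : sd F p r ⊆ F := filter_subset _ _

theorem mem_ty {F : Finset W} {r a b : W} :
    (a, b) ∈ ty F r ↔ a ∈ F ∧ b ∈ F ∧ ¬ (r ∈ N a ↔ r ∈ N b) := by
  unfold ty; rw [mem_filter, mem_product, mem_Sep, and_assoc]

theorem mem_sepW {F : Finset W} {r : W} :
    r ∈ sepW F ↔ ∃ a ∈ F, ∃ b ∈ F, ¬ (r ∈ N a ↔ r ∈ N b) := by
  unfold sepW; simp only [mem_biUnion, mem_Sep]

theorem ty_eq_iff {F : Finset W} {r q : W} : ty F r = ty F q ↔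
    ∀ a ∈ F, ∀ b ∈ F, ((r ∈ N a ↔ r ∈ N b) ↔ (q ∈ N a ↔ q ∈ N b)) := by
  constructor
  · intro h a ha b hb
    have := Finset.ext_iff.1 h (a, b)
    rw [mem_ty, mem_ty] at this
    tauto
  · intro h
    ext ⟨a, b⟩
    rw [mem_ty, mem_ty]
    by_cases ha : a ∈ F
    · by_cases hb : b ∈ F
      · have := h a ha b hb; tauto
      · tauto
    · tauto

theorem sd_eq_iff {F : Finset W} {p r q : W} : sd F p r = sd F p q ↔
    ∀ a ∈ F, ((r ∈ N p ↔ r ∈ N a) ↔ (q ∈ N p ↔ q ∈ N a)) := by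
  rw [Finset.ext_iff]
  refine forall_congr' fun a => ?_
  rw [mem_sd, mem_sd]; tauto

theorem sd_eq_iff' {F : Finset W} {p r q : W} : sd F p r = F \ sd F p q ↔
    ∀ a ∈ F, ((r ∈ N p ↔ r ∈ N a) ↔ ¬ (q ∈ N p ↔ q ∈ N a)) := by
  rw [Finset.ext_iff]
  refine forall_congr' fun a => ?_
  rw [mem_sdiff, mem_sd, mem_sd]; tauto

theorem ty_insert {F : Finset W} {p r q : W} (h : sd F p r = sd F p q) :
    ty (insert p F) r = ty (insert p F) q := by
  rw [sd_eq_iff] at h
  have h' : ∀ a ∈ insert p F, ((r ∈ N p ↔ r ∈ N a) ↔ (q ∈ N p ↔ q ∈ N a)) := by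
    intro a ha
    rcases mem_insert.1 ha with rfl | ha
    · tauto
    · exact h a ha
  rw [ty_eq_iff]
  intro a ha b hb
  have h1 := h' a ha
  have h2 := h' b hb
  tauto

theorem ty_of_sd {F : Finset W} {p r q : W} (h : sd F p r = sd F p q ∨ sd F p r = F \ sd F p q) :
    ty F r = ty F q := by
  rw [ty_eq_iff]
  intro a ha b hb
  rcases h with h | h
  · rw [sd_eq_iff] at h
    have h1 := h a ha
    have h2 := h b hb
    grind
  · rw [sd_eq_iff'] at h
    have h1 := h a ha
    have h2 := h b hb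
    grind

theorem sd_of_ty {F : Finset W} (p : W) {r q : W} (h : ty F r = ty F q) :
    sd F p r = sd F p q ∨ sd F p r = F \ sd F p q := by
  rw [ty_eq_iff] at h
  rw [sd_eq_iff, sd_eq_iff']
  by_contra k
  push Not at k
  obtain ⟨⟨a, ha, k1⟩, b, hb, k2⟩ := k
  have := h a ha b hb
  tauto

theorem card_image_le_two {F Y : Finset W} (p : W) (h : ∀ r ∈ Y, ∀ q ∈ Y, ty F r = ty F q) :
    (Y.image (ty (insert p F))).card ≤ 2 := by
  by_contra k
  obtain ⟨_, h1, _, h2, _, h3, n12, n13, n23⟩ := two_lt_card.1 (not_le.1 k)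
  obtain ⟨a, ha, rfl⟩ := mem_image.1 h1
  obtain ⟨b, hb, rfl⟩ := mem_image.1 h2
  obtain ⟨c, hc, rfl⟩ := mem_image.1 h3
  rcases sd_of_ty p (h a ha c hc) with e1 | e1
  · exact n13 (ty_insert e1)
  rcases sd_of_ty p (h b hb c hc) with e2 | e2
  · exact n23 (ty_insert e2)
  exact n12 (ty_insert (e1.trans e2.symm))

theorem cross_of {F : Finset W} {p r q a b c : W} (ha : a ∈ sd F p r) (ha' : a ∉ sd F p q)
    (hb : b ∉ sd F p r) (hb' : b ∈ sd F p q) (hc : c ∈ F) (hc1 : c ∉ sd F p r)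
    (hc2 : c ∉ sd F p q) : Cross r q := by
  rw [mem_sd] at ha ha' hb hb' hc1 hc2
  have a1 := ha.2
  have a2 : ¬ (q ∈ N p ↔ q ∈ N a) := fun k => ha' ⟨ha.1, k⟩
  have b1 : ¬ (r ∈ N p ↔ r ∈ N b) := fun k => hb ⟨hb'.1, k⟩
  have b2 := hb'.2
  have c1 : ¬ (r ∈ N p ↔ r ∈ N c) := fun k => hc1 ⟨hc, k⟩
  have c2 : ¬ (q ∈ N p ↔ q ∈ N c) := fun k => hc2 ⟨hc, k⟩
  clear ha ha' hb hb' hc1 hc2 hc
  unfold Cross
  by_cases h1 : r ∈ N p <;> by_cases h2 : q ∈ N p
  · exact ⟨⟨p, h1, h2⟩, ⟨a, by grind⟩, ⟨b, by grind⟩, ⟨c, by grind⟩⟩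
  · exact ⟨⟨a, by grind⟩, ⟨p, h1, h2⟩, ⟨c, by grind⟩, ⟨b, by grind⟩⟩
  · exact ⟨⟨b, by grind⟩, ⟨c, by grind⟩, ⟨p, h1, h2⟩, ⟨a, by grind⟩⟩
  · exact ⟨⟨c, by grind⟩, ⟨b, by grind⟩, ⟨a, by grind⟩, ⟨p, h1, h2⟩⟩

theorem sd_proper {F : Finset W} (p : W) {r : W} (h : r ∈ sepW F) :
    (∃ a, a ∈ sd F p r) ∧ ∃ b ∈ F, b ∉ sd F p r := by
  obtain ⟨a, ha, b, hb, k⟩ := mem_sepW.1 h
  simp only [mem_sd]
  by_cases e : r ∈ N p ↔ r ∈ N a
  · exact ⟨⟨a, ha, e⟩, b, hb, by tauto⟩
  · exact ⟨⟨b, hb, by tauto⟩, a, ha, by tauto⟩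

/-- At most twelve long classes are split by a new point. -/
theorem light_le (h4 : T4S) (h44 : K44S) (F : Finset W) (p : W) (R : Finset W)
    (hs : ∀ r ∈ R, r ∈ sepW F)
    (hh : ∀ r ∈ R, ∃ C : Finset W, 4 ≤ C.card ∧ ∀ q ∈ C, sd F p q = F \ sd F p r)
    (hi : ∀ r ∈ R, ∀ q ∈ R, ty F r = ty F q → r = q) : R.card ≤ 12 := by
  have below : ∀ r ∈ R, (R.filter fun q => sd F p q ⊂ sd F p r).card ≤ 3 := by
    intro r hr
    by_contra k
    obtain ⟨C, hC, hC'⟩ := hh r hr
    refine h44 (R.filter fun q => sd F p q ⊂ sd F p r) C (by omega) hC fun q hq q' hq' => ?_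
    obtain ⟨hq1, hq2⟩ := mem_filter.1 hq
    obtain ⟨⟨a, ha⟩, -⟩ := sd_proper p (hs q hq1)
    obtain ⟨-, b, hb, hb'⟩ := sd_proper p (hs r hr)
    obtain ⟨c, hc, hc'⟩ := exists_of_ssubset hq2
    have e := hC' q' hq'
    refine cross_of (a := a) (b := b) (c := c) ha ?_ (fun k => hb' (hq2.1 k)) ?_ (sd_sub _ _ _ hc)
      hc' ?_
    · rw [e, mem_sdiff]; exact fun k => k.2 (hq2.1 ha)
    · rw [e, mem_sdiff]; exact ⟨hb, hb'⟩
    · rw [e, mem_sdiff]; exact fun k => k.2 hc
  set Mx := R.filter fun r => ∀ q ∈ R, ¬ sd F p r ⊂ sd F p q with hMx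
  have top : Mx.card ≤ 3 := by
    refine h4 Mx fun r hr q hq hne => ?_
    obtain ⟨hr1, hr2⟩ := mem_filter.1 hr
    obtain ⟨hq1, hq2⟩ := mem_filter.1 hq
    have n1 : sd F p r ≠ sd F p q := fun e => hne (hi r hr1 q hq1 (ty_of_sd (Or.inl e)))
    have n2 : sd F p r ≠ F \ sd F p q := fun e => hne (hi r hr1 q hq1 (ty_of_sd (Or.inr e)))
    obtain ⟨a, ha, ha'⟩ := not_subset.1 fun k => hr2 q hq1 (Finset.ssubset_iff_subset_ne.2 ⟨k, n1⟩)
    obtain ⟨b, hb, hb'⟩ :=
      not_subset.1 fun k => hq2 r hr1 (Finset.ssubset_iff_subset_ne.2 ⟨k, n1.symm⟩)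
    have dj : ∀ c ∈ sd F p r, c ∉ sd F p q := by
      intro c hc hc'
      obtain ⟨C, hC, hC'⟩ := hh r hr1
      obtain ⟨D, hD, hD'⟩ := hh q hq1
      refine h44 C D hC hD fun x hx y hy => ?_
      have ex := hC' x hx
      have ey := hD' y hy
      refine cross_of (F := F) (p := p) (a := b) (b := a) (c := c) ?_ ?_ ?_ ?_ (sd_sub _ _ _ hc) ?_ ?_
      · rw [ex, mem_sdiff]; exact ⟨sd_sub _ _ _ hb, hb'⟩
      · rw [ey, mem_sdiff]; exact fun k => k.2 hb
      · rw [ex, mem_sdiff]; exact fun k => k.2 ha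
      · rw [ey, mem_sdiff]; exact ⟨sd_sub _ _ _ ha, ha'⟩
      · rw [ex, mem_sdiff]; exact fun k => k.2 hc
      · rw [ey, mem_sdiff]; exact fun k => k.2 hc'
    have : ∃ c ∈ F, c ∉ sd F p r ∧ c ∉ sd F p q := by
      by_contra k
      push Not at k
      refine n2 (Finset.ext fun c => ?_)
      rw [mem_sdiff]
      exact ⟨fun hc => ⟨sd_sub _ _ _ hc, dj c hc⟩, fun hc => by
        by_contra k'
        exact hc.2 (k c hc.1 k')⟩
    obtain ⟨c, hc, hc1, hc2⟩ := this
    exact cross_of ha ha' hb' hb hc hc1 hc2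
  have cov : R ⊆ Mx.biUnion fun r => insert r (R.filter fun q => sd F p q ⊂ sd F p r) := by
    intro q hq
    obtain ⟨r, hr, hmax⟩ := exists_max_image (R.filter fun r => sd F p q ⊆ sd F p r)
      (fun r => (sd F p r).card) ⟨q, mem_filter.2 ⟨hq, subset_rfl⟩⟩
    obtain ⟨hr1, hr2⟩ := mem_filter.1 hr
    refine mem_biUnion.2 ⟨r, mem_filter.2 ⟨hr1, fun x hx k => ?_⟩, ?_⟩
    · have h1 := hmax x (mem_filter.2 ⟨hx, hr2.trans k.1⟩)
      have h2 := card_lt_card k
      omega
    · by_cases e : sd F p q = sd F p r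
      · rw [hi q hq r hr1 (ty_of_sd (Or.inl e))]; exact mem_insert_self _ _
      · exact mem_insert_of_mem (mem_filter.2 ⟨hq, Finset.ssubset_iff_subset_ne.2 ⟨hr2, e⟩⟩)
  have h1 := card_le_card cov
  have h2 := card_biUnion_le_card_mul Mx
    (fun r => insert r (R.filter fun q => sd F p q ⊂ sd F p r)) 4 fun r hr =>
      (card_insert_le _ _).trans (Nat.succ_le_succ (below r (mem_filter.1 hr).1))
  omega

theorem tau_insert (h4 : T4S) (h44 : K44S) (F : Finset W) (p : W) :
    tau (insert p F) ≤ tau F + 1960 := by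
  set X := sepW F with hX
  have hsub : X ⊆ sepW (insert p F) := by
    intro r hr
    obtain ⟨a, ha, b, hb, k⟩ := mem_sepW.1 hr
    exact mem_sepW.2 ⟨a, mem_insert_of_mem ha, b, mem_insert_of_mem hb, k⟩
  have h0 : tf (sepW (insert p F) \ X) (ty (insert p F)) ≤ 280 := by
    refine (tf_le_mul _ _).trans ?_
    have := card_image_le_two (F := F) (Y := sepW (insert p F) \ X) p fun r hr q hq => by
      rw [ty_eq_iff]
      intro a ha b hb
      have e1 : r ∈ N a ↔ r ∈ N b := by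
        by_contra k
        exact (mem_sdiff.1 hr).2 (mem_sepW.2 ⟨a, ha, b, hb, k⟩)
      have e2 : q ∈ N a ↔ q ∈ N b := by
        by_contra k
        exact (mem_sdiff.1 hq).2 (mem_sepW.2 ⟨a, ha, b, hb, k⟩)
      tauto
    omega
  set Sp := (X.image (ty F)).filter fun t => 140 < (X.filter fun q => ty F q = t).card ∧
    1 < ((X.filter fun q => ty F q = t).image (ty (insert p F))).card with hSp
  have h1 : Sp.card ≤ 12 := by
    have ex : ∀ t ∈ Sp, ∃ r, r ∈ X ∧ ty F r = t ∧
        ∃ C : Finset W, 4 ≤ C.card ∧ ∀ q ∈ C, sd F p q = F \ sd F p r := by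
      intro t ht
      obtain ⟨-, hl, h2⟩ := mem_filter.1 ht
      obtain ⟨_, k1, _, k2, hne⟩ := one_lt_card.1 h2
      obtain ⟨q1, hq1, rfl⟩ := mem_image.1 k1
      obtain ⟨q2, hq2, rfl⟩ := mem_image.1 k2
      obtain ⟨a1, b1⟩ := mem_filter.1 hq1
      obtain ⟨a2, b2⟩ := mem_filter.1 hq2
      have e : sd F p q1 = F \ sd F p q2 :=
        (sd_of_ty p (b1.trans b2.symm)).resolve_left fun k => hne (ty_insert k)
      have cov : (X.filter fun q => ty F q = t) ⊆ (X.filter fun q => sd F p q = F \ sd F p q1) ∪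
          (X.filter fun q => sd F p q = F \ sd F p q2) := by
        intro q hq
        obtain ⟨a, b⟩ := mem_filter.1 hq
        rcases sd_of_ty p (b.trans b1.symm) with k | k
        · exact mem_union_right _ (mem_filter.2 ⟨a, k.trans e⟩)
        · exact mem_union_left _ (mem_filter.2 ⟨a, k⟩)
      have c1 := (card_le_card cov).trans (card_union_le _ _)
      by_cases c : 4 ≤ (X.filter fun q => sd F p q = F \ sd F p q1).card
      · exact ⟨q1, a1, b1, _, c, fun q hq => (mem_filter.1 hq).2⟩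
      · exact ⟨q2, a2, b2, X.filter fun q => sd F p q = F \ sd F p q2, by omega,
          fun q hq => (mem_filter.1 hq).2⟩
    choose! ρ hρ using ex
    have inj : Set.InjOn ρ Sp := fun t ht u hu e => by
      rw [← (hρ t ht).2.1, ← (hρ u hu).2.1, e]
    rw [← card_image_of_injOn inj]
    refine light_le h4 h44 F p _ ?_ ?_ ?_
    · intro r hr
      obtain ⟨t, ht, rfl⟩ := mem_image.1 hr
      exact (hρ t ht).1
    · intro r hr
      obtain ⟨t, ht, rfl⟩ := mem_image.1 hr
      exact (hρ t ht).2.2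
    · intro r hr q hq e
      obtain ⟨t, ht, rfl⟩ := mem_image.1 hr
      obtain ⟨u, hu, rfl⟩ := mem_image.1 hq
      rw [(hρ t ht).2.1, (hρ u hu).2.1] at e
      rw [e]
  have h2 : tf X (ty (insert p F)) ≤ tau F + 140 * Sp.card := by
    have e : tf X (ty (insert p F)) =
        tf ((X.image (ty F)).biUnion fun t => X.filter fun q => ty F q = t) (ty (insert p F)) := by
      rw [image_biUnion_filter_eq]
    rw [e]
    refine (tf_biUnion _ _ _).trans ?_
    rw [hSp, card_filter, mul_sum, tau_eq, tf, ← sum_add_distrib]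
    refine sum_le_sum fun t _ => ?_
    have a1 := tf_le_card (X.filter fun q => ty F q = t) (ty (insert p F))
    have a2 := tf_le_mul (X.filter fun q => ty F q = t) (ty (insert p F))
    have a3 := card_image_le_two (F := F) (Y := X.filter fun q => ty F q = t) p fun r hr q hq =>
      (mem_filter.1 hr).2.trans (mem_filter.1 hq).2.symm
    rw [← hX]
    split_ifs with c <;> omega
  have h3 := tf_union (sepW (insert p F) \ X) X (ty (insert p F))
  rw [sdiff_union_of_subset hsub, ← tau_eq] at h3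
  omega

end TauP

theorem tauS (h4 : T4S) (h44 : K44S) : TauS := by
  refine ⟨1960, fun F => ?_⟩
  induction F using Finset.induction_on with
  | empty => simp [tau, sepW]
  | insert p F hp ih =>
    have := TauP.tau_insert h4 h44 F p
    rw [Finset.card_insert_of_notMem hp]
    omega

end Pool.Agent.MP_df844f_gt.RA

end
end MrgPart2

-- ======== part 3: formerly Pool.Agent.MP_df844f_gt.RA.w.Cut
section MrgPart3

/-! Cutting a finite set along a long class of walls. -/

set_option linter.unusedSectionVars false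

noncomputable section

namespace Pool.Agent.MP_df844f_gt.RA

variable [Dat]

namespace CutP

open Finset TauP

theorem exists_cut (C : Finset W) (a : W) (k : ℕ) : ∀ (n : ℕ) (b : W), d a b = n →
    k ≤ (C ∩ Sep a b).card → ∃ u, Btw a u b ∧ (C ∩ Sep a u).card = k := by
  intro n
  induction n with
  | zero =>
    intro b hb hk
    obtain rfl := d_eq_zero.1 hb
    refine ⟨a, btw_iff.2 subset_rfl, ?_⟩
    rw [Sep_self, inter_empty, card_empty] at hk ⊢
    omega
  | succ n ih =>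
    intro b hb hk
    by_cases e : (C ∩ Sep a b).card = k
    · exact ⟨b, btw_iff.2 subset_rfl, e⟩
    have hne : b ≠ a := fun k => by rw [k, d_self] at hb; omega
    obtain ⟨s, hs⟩ := exists_desc hne
    have h1 := hs.d_eq
    have h2 := Sep_step_of_mem (desc_iff.1 hs)
    have h3 : (C ∩ Sep a b).card - 1 ≤ (C ∩ Sep a (g s * b)).card := by
      rw [h2, inter_erase]
      exact pred_card_le_card_erase
    obtain ⟨u, hu, hc⟩ := ih (g s * b) (by omega) (by omega)
    refine ⟨u, btw_iff.2 ((btw_iff.1 hu).trans ?_), hc⟩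
    rw [h2]; exact erase_subset _ _

theorem mem_cls {F : Finset W} {r q : W} : q ∈ cls F r ↔ q ∈ sepW F ∧
    ∀ a ∈ F, ∀ b ∈ F, ((q ∈ N a ↔ q ∈ N b) ↔ (r ∈ N a ↔ r ∈ N b)) := by
  unfold cls; rw [mem_filter, ty_eq_iff]

theorem cls_sep {F : Finset W} {r q a b : W} (hq : q ∈ cls F r) (ha : a ∈ F) (hb : b ∈ F)
    (ra : r ∉ N a) (rb : r ∈ N b) : ¬ (q ∈ N a ↔ q ∈ N b) := by
  have := (mem_cls.1 hq).2 a ha b hb
  grind

theorem k3 (h : K44S) {D C : Finset W} (hC : 4 ≤ C.card) (hc : ∀ q ∈ D, ∀ e ∈ C, Cross q e) :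
    D.card ≤ 3 := by
  by_contra k
  exact h D C (by omega) hC hc

theorem cr4 {q e : W} (a b c x : W) (h1 : q ∈ N a ↔ q ∈ N b) (h2 : q ∈ N c ↔ q ∈ N x)
    (h3 : ¬ (q ∈ N a ↔ q ∈ N c)) (h4 : e ∈ N a ↔ e ∈ N c) (h5 : e ∈ N b ↔ e ∈ N x)
    (h6 : ¬ (e ∈ N a ↔ e ∈ N b)) : Cross q e :=
  cross_of_four (a := a) (b := b) (c := c) (e := x) (by rw [mem_Sep]; exact not_not.2 h1)
    (by rw [mem_Sep]; exact not_not.2 h2) (mem_Sep.2 h3) (by rw [mem_Sep]; exact not_not.2 h4)
    (by rw [mem_Sep]; exact not_not.2 h5) (mem_Sep.2 h6)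

/-- Walls separating a point of `[a0, b0]` from both `a'` and `b'`. -/
theorem six (h : K44S) {a0 b0 a' b' u : W} {E1 E3 : Finset W} (hu : Btw a0 u b0)
    (c1 : 4 ≤ E1.card) (c3 : 4 ≤ E3.card)
    (h1 : ∀ e ∈ E1, (e ∈ N a0 ↔ e ∈ N a') ∧ (e ∈ N u ↔ e ∈ N b') ∧ ¬ (e ∈ N a0 ↔ e ∈ N u))
    (h3 : ∀ e ∈ E3, (e ∈ N u ↔ e ∈ N a') ∧ (e ∈ N b0 ↔ e ∈ N b') ∧ ¬ (e ∈ N u ↔ e ∈ N b0)) :
    (Sep u a' ∩ Sep u b').card ≤ 6 := by
  have a1 : ((Sep u a' ∩ Sep u b').filter fun q => q ∈ N u ↔ q ∈ N a0).card ≤ 3 := by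
    refine k3 h c1 fun q hq e he => ?_
    simp only [mem_filter, mem_inter, mem_Sep] at hq
    have := h1 e he
    exact cr4 a0 u a' b' (by grind) (by grind) (by grind) (by grind) (by grind) (by grind)
  have a2 : ((Sep u a' ∩ Sep u b').filter fun q => ¬ (q ∈ N u ↔ q ∈ N a0)).card ≤ 3 := by
    refine k3 h c3 fun q hq e he => ?_
    simp only [mem_filter, mem_inter, mem_Sep] at hq
    have := h3 e he
    have := btw_iff'.1 hu q
    exact cr4 u b0 a' b' (by grind) (by grind) (by grind) (by grind) (by grind) (by grind)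
  have := card_filter_add_card_filter_not (s := Sep u a' ∩ Sep u b') fun q => q ∈ N u ↔ q ∈ N a0
  omega

theorem tf_mono {A B : Finset W} (h : A ⊆ B) (f : W → Finset (W × W)) : tf A f ≤ tf B f := by
  rw [tf_eq (X := A) (U := B.image f) (image_subset_image h)]
  exact sum_le_sum fun t _ => min_le_min_left _ (card_le_card (filter_subset_filter _ h))

theorem tf_coarse (A : Finset W) (f f' : W → Finset (W × W))
    (h : ∀ q ∈ A, ∀ q' ∈ A, f q = f q' → f' q = f' q') : tf A f' ≤ tf A f := by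
  have e : tf A f' = tf ((A.image f).biUnion fun t => A.filter fun q => f q = t) f' := by
    rw [image_biUnion_filter_eq]
  rw [e]
  refine (tf_biUnion _ _ _).trans (sum_le_sum fun t _ => ?_)
  have a1 := tf_le_card (A.filter fun q => f q = t) f'
  have a2 := tf_le_mul (A.filter fun q => f q = t) f'
  have a3 : ((A.filter fun q => f q = t).image f').card ≤ 1 := by
    refine card_le_one.2 fun x hx y hy => ?_
    obtain ⟨q, hq, rfl⟩ := mem_image.1 hx
    obtain ⟨q', hq', rfl⟩ := mem_image.1 hy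
    exact h q (mem_filter.1 hq).1 q' (mem_filter.1 hq').1
      ((mem_filter.1 hq).2.trans (mem_filter.1 hq').2.symm)
  omega

theorem tf_disj (A B : Finset W) (f : W → Finset (W × W)) (h : ∀ q ∈ A, ∀ q' ∈ B, f q ≠ f q') :
    tf A f + tf B f ≤ tf (A ∪ B) f := by
  have hd : Disjoint (A.image f) (B.image f) := by
    rw [disjoint_left]
    intro t h1 h2
    obtain ⟨q, hq, rfl⟩ := mem_image.1 h1
    obtain ⟨q', hq', e⟩ := mem_image.1 h2
    exact h q hq q' hq' e.symm
  unfold tf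
  rw [image_union, sum_union hd]
  exact Nat.add_le_add
    (sum_le_sum fun t _ => min_le_min_left _ (card_le_card (filter_subset_filter _ subset_union_left)))
    (sum_le_sum fun t _ => min_le_min_left _ (card_le_card (filter_subset_filter _ subset_union_right)))

theorem side (h : K44S) {F FL FR E : Finset W} {a0 b0 u : W} (hL : FL ⊆ F) (ha : a0 ∈ FL)
    (hb : b0 ∈ FR) (hbF : b0 ∈ F) (hu : Btw a0 u b0)
    (hE : ∀ e ∈ E, ∀ a ∈ FL, ∀ b ∈ FR, ¬ (e ∈ N a ↔ e ∈ N b))
    (hE' : ∀ q, (∀ a ∈ FL, ∀ b ∈ FR, ¬ (q ∈ N a ↔ q ∈ N b)) → q ∈ E)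
    (c1 : 4 ≤ (E ∩ Sep a0 u).card) (c3 : 4 ≤ (E ∩ Sep u b0).card) :
    tau (insert u FL) ≤ tf (sepW FL \ sepW FR) (ty F) + (E ∩ Sep a0 u).card + 6 := by
  have b1 : (sepW FL ∩ (sepW FR ∪ Sep u b0)).card ≤ 3 := by
    refine k3 h c1 fun q hq e he => ?_
    obtain ⟨hq1, hq2⟩ := mem_inter.1 hq
    obtain ⟨he1, he2⟩ := mem_inter.1 he
    obtain ⟨x, hx, y, hy, hxy⟩ := mem_sepW.1 hq1
    have e1 := hE e he1 x hx b0 hb
    have e2 := hE e he1 y hy b0 hb
    rcases mem_union.1 hq2 with hq2 | hq2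
    · obtain ⟨z, hz, w, hw, hzw⟩ := mem_sepW.1 hq2
      have e3 := hE e he1 x hx z hz
      have e4 := hE e he1 x hx w hw
      by_cases k : q ∈ N x ↔ q ∈ N z
      · exact cr4 x z y w (by grind) (by grind) (by grind) (by grind) (by grind) (by grind)
      · exact cr4 x w y z (by grind) (by grind) (by grind) (by grind) (by grind) (by grind)
    · have e3 := hE e he1 a0 ha b0 hb
      rw [mem_Sep] at hq2 he2
      by_cases k : q ∈ N x ↔ q ∈ N u
      · exact cr4 x u y b0 (by grind) (by grind) (by grind) (by grind) (by grind) (by grind)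
      · exact cr4 y u x b0 (by grind) (by grind) (by grind) (by grind) (by grind) (by grind)
  have b2 : (sepW FR ∩ Sep a0 u).card ≤ 3 := by
    refine k3 h c3 fun q hq e he => ?_
    obtain ⟨hq1, hq2⟩ := mem_inter.1 hq
    obtain ⟨he1, he2⟩ := mem_inter.1 he
    obtain ⟨x, hx, y, hy, hxy⟩ := mem_sepW.1 hq1
    have e1 := hE e he1 a0 ha x hx
    have e2 := hE e he1 a0 ha y hy
    have e3 := hE e he1 a0 ha b0 hb
    rw [mem_Sep] at hq2 he2
    by_cases k : q ∈ N x ↔ q ∈ N u
    · exact cr4 a0 y u x (by grind) (by grind) (by grind) (by grind) (by grind) (by grind)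
    · exact cr4 a0 x u y (by grind) (by grind) (by grind) (by grind) (by grind) (by grind)
  set G := (sepW FL \ sepW FR) \ Sep u b0 with hG
  have cov : sepW (insert u FL) ⊆ G ∪ (E ∩ Sep a0 u ∪
      (sepW FL ∩ (sepW FR ∪ Sep u b0) ∪ sepW FR ∩ Sep a0 u)) := by
    intro q hq
    simp only [hG, mem_union, mem_inter, mem_sdiff]
    by_cases k1 : q ∈ sepW FL
    · tauto
    have n1 : ∀ a ∈ FL, (q ∈ N a ↔ q ∈ N a0) := fun a ha' => by
      by_contra k
      exact k1 (mem_sepW.2 ⟨a, ha', a0, ha, k⟩)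
    have s1 : q ∈ Sep a0 u := by
      obtain ⟨x, hx, y, hy, hxy⟩ := mem_sepW.1 hq
      rw [mem_Sep]
      intro k
      have n2 : ∀ a ∈ insert u FL, (q ∈ N a ↔ q ∈ N a0) := fun a ha' => by
        rcases mem_insert.1 ha' with rfl | ha'
        · exact k.symm
        · exact n1 a ha'
      exact hxy ((n2 x hx).trans (n2 y hy).symm)
    by_cases k2 : q ∈ sepW FR
    · exact Or.inr (Or.inr (Or.inr ⟨k2, s1⟩))
    refine Or.inr (Or.inl ⟨hE' q fun a ha' b hb' => ?_, s1⟩)
    have n2 : q ∈ N b ↔ q ∈ N b0 := by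
      by_contra k
      exact k2 (mem_sepW.2 ⟨b, hb', b0, hb, k⟩)
    have n3 := n1 a ha'
    have n4 := mem_Sep.1 (btw_iff.1 hu s1)
    grind
  have t1 : tf G (ty (insert u FL)) ≤ tf G (ty F) := by
    refine tf_coarse _ _ _ fun q hq q' hq' e => ?_
    have m1 := (mem_sdiff.1 hq).2
    have m2 := (mem_sdiff.1 hq').2
    rw [mem_Sep, not_not] at m1 m2
    rw [ty_eq_iff] at e ⊢
    have ex : ∀ a ∈ insert u FL, ∃ x ∈ F, (q ∈ N a ↔ q ∈ N x) ∧ (q' ∈ N a ↔ q' ∈ N x) := by
      intro a ha'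
      rcases mem_insert.1 ha' with rfl | ha'
      · exact ⟨b0, hbF, m1, m2⟩
      · exact ⟨a, hL ha', Iff.rfl, Iff.rfl⟩
    intro a ha' b hb'
    obtain ⟨x, hx, x1, x2⟩ := ex a ha'
    obtain ⟨y, hy, y1, y2⟩ := ex b hb'
    rw [x1, x2, y1, y2]
    exact e x hx y hy
  have t2 : tf G (ty F) ≤ tf (sepW FL \ sepW FR) (ty F) := tf_mono sdiff_subset _
  have t3 := (tf_mono cov (ty (insert u FL))).trans (tf_union _ _ _)
  have t4 := tf_le_card (E ∩ Sep a0 u ∪
      (sepW FL ∩ (sepW FR ∪ Sep u b0) ∪ sepW FR ∩ Sep a0 u)) (ty (insert u FL))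
  have t5 := card_union_le (E ∩ Sep a0 u) (sepW FL ∩ (sepW FR ∪ Sep u b0) ∪ sepW FR ∩ Sep a0 u)
  have t6 := card_union_le (sepW FL ∩ (sepW FR ∪ Sep u b0)) (sepW FR ∩ Sep a0 u)
  rw [tau_eq]
  omega

theorem sepW_of_ty {F G : Finset W} (hG : G ⊆ F) {q q' : W} (e : ty F q = ty F q')
    (h : q ∈ sepW G) : q' ∈ sepW G := by
  obtain ⟨a, ha, b, hb, k⟩ := mem_sepW.1 h
  exact mem_sepW.2 ⟨a, ha, b, hb, fun k' => k ((ty_eq_iff.1 e a (hG ha) b (hG hb)).2 k')⟩

theorem sepW_mono {F G : Finset W} (hG : G ⊆ F) : sepW G ⊆ sepW F := by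
  intro q h
  obtain ⟨a, ha, b, hb, k⟩ := mem_sepW.1 h
  exact mem_sepW.2 ⟨a, hG ha, b, hG hb, k⟩

end CutP

open Finset TauP CutP

theorem cutEx : CutExS := by
  intro F r hr hl
  have : ∃ a ∈ F, ∃ b ∈ F, r ∉ N a ∧ r ∈ N b := by
    obtain ⟨a, ha, b, hb, k⟩ := mem_sepW.1 hr
    by_cases e : r ∈ N a
    · exact ⟨b, hb, a, ha, by tauto, e⟩
    · exact ⟨a, ha, b, hb, e, by tauto⟩
  obtain ⟨a, ha, b, hb, ra, rb⟩ := this
  have hs : cls F r ⊆ Sep a b := fun q hq => mem_Sep.2 (cls_sep hq ha hb ra rb)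
  obtain ⟨uL, h1, h2⟩ := exists_cut (cls F r) a 58 _ b rfl (by rw [inter_eq_left.2 hs]; omega)
  have h3 : cls F r ⊆ cls F r ∩ Sep a uL ∪ cls F r ∩ Sep b uL := by
    intro q hq
    have := mem_Sep.1 (hs hq)
    simp only [mem_union, mem_inter, mem_Sep]
    grind
  have h4 := (card_le_card h3).trans (card_union_le _ _)
  obtain ⟨uR, h5, h6⟩ := exists_cut (cls F r) b 58 _ uL rfl (by omega)
  exact ⟨a, b, uL, uR, hl, ha, hb, ra, rb, h1, h5.symm, h2, by rw [Sep_comm]; exact h6⟩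

theorem cutSP (h : K44S) (hc : CloseDS) : CutSPS := by
  intro F r a0 b0 uL uR D
  refine ⟨fun a ha b hb a' b' ca cb => ?_, fun a ha b hb => ?_⟩
  swap
  · obtain ⟨ha, ra⟩ := mem_filter.1 ha
    obtain ⟨hb, rb⟩ := mem_filter.1 hb
    have h1 : cls F r ⊆ Sep a b := fun q hq => mem_Sep.2 (cls_sep hq ha hb ra rb)
    have h2 := card_le_card h1
    have h3 := D.long
    rw [card_Sep] at h2
    omega
  obtain ⟨ha, ra⟩ := mem_filter.1 ha
  obtain ⟨hb, rb⟩ := mem_filter.1 hb
  have da := hc _ _ ca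
  have db := hc _ _ cb
  rw [← card_Sep] at da db
  have du := card_union_le (Sep a a') (Sep b b')
  have c1 : 4 ≤ ((cls F r ∩ Sep a0 uL) \ (Sep a a' ∪ Sep b b')).card := by
    have := le_card_sdiff (Sep a a' ∪ Sep b b') (cls F r ∩ Sep a0 uL)
    have := D.cL
    omega
  have c3 : 4 ≤ ((cls F r ∩ Sep uR b0) \ (Sep a a' ∪ Sep b b')).card := by
    have := le_card_sdiff (Sep a a' ∪ Sep b b') (cls F r ∩ Sep uR b0)
    have := D.cR
    omega
  have p1 : ∀ e ∈ (cls F r ∩ Sep a0 uL) \ (Sep a a' ∪ Sep b b'), (e ∈ N a0 ↔ e ∈ N a') ∧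
      (e ∈ N uL ↔ e ∈ N b') ∧ (e ∈ N uR ↔ e ∈ N b') ∧ ¬ (e ∈ N a0 ↔ e ∈ N b') := by
    intro e he
    simp only [mem_sdiff, mem_inter, mem_union, mem_Sep] at he
    have e1 := cls_sep he.1.1 D.ha D.hb D.ra D.rb
    have e2 := cls_sep he.1.1 ha D.hb ra D.rb
    have e3 := cls_sep he.1.1 D.ha hb D.ra rb
    have e4 := btw_iff'.1 D.bR e
    have e5 := he.1.2
    have e6 := he.2
    clear he
    grind
  have p3 : ∀ e ∈ (cls F r ∩ Sep uR b0) \ (Sep a a' ∪ Sep b b'), (e ∈ N b0 ↔ e ∈ N b') ∧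
      (e ∈ N uL ↔ e ∈ N a') ∧ (e ∈ N uR ↔ e ∈ N a') ∧ ¬ (e ∈ N b0 ↔ e ∈ N a') := by
    intro e he
    simp only [mem_sdiff, mem_inter, mem_union, mem_Sep] at he
    have e1 := cls_sep he.1.1 D.ha D.hb D.ra D.rb
    have e2 := cls_sep he.1.1 ha D.hb ra D.rb
    have e3 := cls_sep he.1.1 D.ha hb D.ra rb
    have e4 := btw_iff'.1 D.bR e
    have e5 := he.1.2
    have e6 := he.2
    clear he
    grind
  have bR' : Btw a0 uR b0 := btw_iff'.2 fun q hq => by
    have e1 := btw_iff'.1 D.bL q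
    have e2 := btw_iff'.1 D.bR q
    grind
  have sL := six h D.bL c1 c3 (a' := a') (b' := b') (fun e he => by have := p1 e he; grind)
    (fun e he => by have := p3 e he; grind)
  have sR := six h bR' c1 c3 (a' := a') (b' := b') (fun e he => by have := p1 e he; grind)
    (fun e he => by have := p3 e he; grind)
  obtain ⟨mL, hmL⟩ := exists_med a' b' uL
  obtain ⟨mR, hmR⟩ := exists_med mL b' uR
  have s3 : ((Sep uR uL ∩ Sep uR b') \ Sep uR a').card ≤ 3 := by
    refine k3 h c3 fun q hq e he => ?_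
    simp only [mem_sdiff, mem_inter, mem_Sep] at hq
    have e1 := p3 e he
    have e2 := btw_iff'.1 D.bR q
    exact cr4 a' b0 uL b' (by grind) (by grind) (by grind) (by grind) (by grind) (by grind)
  refine ⟨mL, mR, close_of_d_le ?_, close_of_d_le ?_, ?_⟩
  · have : Sep uL mL ⊆ Sep uL a' ∩ Sep uL b' := by
      intro q hq
      have := hmL q
      simp only [mem_inter, mem_Sep] at hq ⊢
      grind
    have := card_le_card this
    rw [card_Sep] at this
    omega
  · have : Sep uR mR ⊆ Sep uR a' ∩ Sep uR b' ∪ (Sep uR uL ∩ Sep uR b') \ Sep uR a' := by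
      intro q hq
      have e1 := hmL q
      have e2 := hmR q
      simp only [mem_inter, mem_union, mem_sdiff, mem_Sep] at hq ⊢
      grind
    have := (card_le_card this).trans (card_union_le _ _)
    rw [card_Sep] at this
    omega
  · have e1 : Btw a' mL b' := hmL.btw12
    have e2 : Btw mL mR b' := hmR.btw12
    unfold Btw at e1 e2
    omega

theorem cutTau (h : K44S) : CutTauS := by
  intro F r a0 b0 uL uR D
  set FL := F.filter fun a => r ∉ N a with hFL
  set FR := F.filter fun a => r ∈ N a with hFR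
  have sL : FL ⊆ F := filter_subset _ _
  have sR : FR ⊆ F := filter_subset _ _
  have ha : a0 ∈ FL := mem_filter.2 ⟨D.ha, D.ra⟩
  have hb : b0 ∈ FR := mem_filter.2 ⟨D.hb, D.rb⟩
  have hE : ∀ e ∈ cls F r, ∀ a ∈ FL, ∀ b ∈ FR, ¬ (e ∈ N a ↔ e ∈ N b) := fun e he a ha b hb =>
    cls_sep he (sL ha) (sR hb) (mem_filter.1 ha).2 (mem_filter.1 hb).2
  have hE' : ∀ q, (∀ a ∈ FL, ∀ b ∈ FR, ¬ (q ∈ N a ↔ q ∈ N b)) → q ∈ cls F r := by
    intro q hq
    have e0 := hq a0 ha b0 hb
    refine mem_cls.2 ⟨mem_sepW.2 ⟨a0, D.ha, b0, D.hb, e0⟩, ?_⟩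
    have k : ∀ a ∈ F, ((q ∈ N a ↔ q ∈ N b0) ↔ r ∈ N a) := by
      intro a ha'
      by_cases e : r ∈ N a
      · have := hq a0 ha a (mem_filter.2 ⟨ha', e⟩)
        grind
      · have := hq a (mem_filter.2 ⟨ha', e⟩) b0 hb
        grind
    intro a ha' b hb'
    have e1 := k a ha'
    have e2 := k b hb'
    grind
  have bR' : Btw a0 uR b0 := btw_iff'.2 fun q hq => by
    have e1 := btw_iff'.1 D.bL q
    have e2 := btw_iff'.1 D.bR q
    grind
  have cL := D.cL
  have cR := D.cR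
  have i1 : cls F r ∩ Sep uR b0 ⊆ cls F r ∩ Sep uL b0 := by
    refine inter_subset_inter_left fun q hq => ?_
    have e2 := btw_iff'.1 D.bR q
    rw [mem_Sep] at hq ⊢
    grind
  have i2 : cls F r ∩ Sep a0 uL ⊆ cls F r ∩ Sep uR a0 := by
    refine inter_subset_inter_left fun q hq => ?_
    have e1 := btw_iff'.1 D.bL q
    have e2 := btw_iff'.1 D.bR q
    rw [mem_Sep] at hq ⊢
    grind
  have j1 := card_le_card i1
  have j2 := card_le_card i2
  have t1 := side h sL ha hb D.hb D.bL hE hE' (by omega) (by omega)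
  have t2 := side h (E := cls F r) sR hb ha D.ha bR'.symm
    (fun e he a ha b hb k => hE e he b hb a ha k.symm)
    (fun q hq => hE' q fun a ha b hb k => hq b hb a ha k.symm)
    (by rw [Sep_comm]; omega) (by omega)
  rw [Sep_comm b0 uR] at t2
  have t3 := tf_disj (sepW FL \ sepW FR) (sepW FR \ sepW FL) (ty F) fun q hq q' hq' e =>
    (mem_sdiff.1 hq').2 (sepW_of_ty sL e (mem_sdiff.1 hq).1)
  have nE : ∀ e ∈ cls F r, e ∉ sepW FL ∧ e ∉ sepW FR := by
    intro e he
    constructor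
    · intro k
      obtain ⟨x, hx, y, hy, k⟩ := mem_sepW.1 k
      have e1 := hE e he x hx b0 hb
      have e2 := hE e he y hy b0 hb
      grind
    · intro k
      obtain ⟨x, hx, y, hy, k⟩ := mem_sepW.1 k
      have e1 := hE e he a0 ha x hx
      have e2 := hE e he a0 ha y hy
      grind
  have t4 := tf_disj (sepW FL \ sepW FR ∪ sepW FR \ sepW FL) (cls F r) (ty F) fun q hq q' hq' e => by
    rcases mem_union.1 hq with k | k
    · exact (nE q' hq').1 (sepW_of_ty sL e (mem_sdiff.1 k).1)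
    · exact (nE q' hq').2 (sepW_of_ty sR e (mem_sdiff.1 k).1)
  have t5 : tf (sepW FL \ sepW FR ∪ sepW FR \ sepW FL ∪ cls F r) (ty F) ≤ tau F :=
    tf_mono (union_subset (union_subset (sdiff_subset.trans (sepW_mono sL))
      (sdiff_subset.trans (sepW_mono sR))) (filter_subset _ _)) _
  have t6 : tf (cls F r) (ty F) = 140 := by
    have hl := D.long
    have e : ((cls F r).filter fun q => ty F q = ty F r) = cls F r :=
      filter_true_of_mem fun q hq => (mem_filter.1 hq).2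
    rw [tf_eq (U := {ty F r}) (fun t ht => by
      obtain ⟨q, hq, rfl⟩ := mem_image.1 ht
      exact mem_singleton.2 (mem_filter.1 hq).2), sum_singleton, e]
    omega
  omega

end Pool.Agent.MP_df844f_gt.RA

end
end MrgPart3

-- marker of a merged file
example : 731051 + 795536 = 731051 + 795536 := rfl
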